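import Pool.Agent.LGC.All

set_option autoImplicit false

/-!
# MP_5b54e3_co: general set sizes and clique sizes

Definitions and the numerical conditions, in terms of `q = (N/k)^δ`.
-/

namespace Pool.Agent.LGS

open Finset

/-- Every set of exactly `s` vertices contains a clique with exactly `t` vertices. -/
def LocalCliques {V : Type} (G : SimpleGraph V) (s t : ℕ) : Prop :=
  ∀ S : Finset V, S.card = s → ∃ T ⊆ S, T.card = t ∧ G.IsClique (T : Set V)

end Pool.Agent.LGS
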