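import Pool.Agent.LGS.Unif

set_option autoImplicit false

/-!
# MP_5b54e3_co, general sizes: the numerical conditions

`r = N / k`, `l = log r`, `q = r ^ δ`, `p = δ l / k`, `η = 1 / l`, `w₀ = N / q ^ 4`,
`x₀ = N / q ^ 6`, `κ = δ r / q ^ 4`, `D = r / 16`.
-/

namespace Pool.Agent.LGS

open Finset Pool.Agent.LGC

/-- the basic facts on `q` and `log q` -/
theorem q_facts {δ q : ℝ} (hδ : 0 < δ) (hδ1 : δ ≤ 1 / 20) (hq : 8640 ≤ δ ^ 3 * q) :
    8640 ≤ q ∧ 8640 ≤ δ * q ∧ 8640 ≤ δ ^ 2 * q ∧ 1 ≤ Real.log q ∧ 8 * Real.log q ≤ q := by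
  have hδ3 : 0 < δ ^ 3 := by positivity
  have hq0 : 0 < q := by
    by_contra hcon
    push Not at hcon
    nlinarith
  have h2 : δ ^ 3 ≤ δ ^ 2 := by
    have : δ ^ 3 = δ ^ 2 * δ := by ring
    rw [this]
    nlinarith [sq_nonneg δ]
  have h1 : δ ^ 2 ≤ δ := by nlinarith
  have hq2 : 8640 ≤ δ ^ 2 * q := hq.trans (mul_le_mul_of_nonneg_right h2 hq0.le)
  have hq1 : 8640 ≤ δ * q := hq2.trans (mul_le_mul_of_nonneg_right h1 hq0.le)
  have hq' : 8640 ≤ q := by nlinarith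
  have hlog1 : 1 ≤ Real.log q := by
    rw [Real.le_log_iff_exp_le hq0]
    have := Real.exp_one_lt_three
    linarith
  refine ⟨hq', hq1, hq2, hlog1, ?_⟩
  have hs : Real.sqrt q * Real.sqrt q = q := Real.mul_self_sqrt hq0.le
  have hs0 : 0 < Real.sqrt q := Real.sqrt_pos.2 hq0
  have hs16 : 16 ≤ Real.sqrt q := by
    apply Real.le_sqrt_of_sq_le
    linarith
  have hl : Real.log q = 2 * Real.log (Real.sqrt q) := by
    rw [Real.log_sqrt hq0.le]
    ring
  have h3 : Real.log (Real.sqrt q) ≤ Real.sqrt q := by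
    have := Real.log_le_sub_one_of_pos hs0
    linarith
  rw [hl]
  nlinarith

/-- `exp q` beats the powers of `q` -/
theorem exp_facts {q : ℝ} (hq : 8640 ≤ q) : 72 * q ^ 4 ≤ Real.exp q := by
  have h := Real.pow_div_factorial_le_exp (x := q) (by linarith) 5
  have h5 : ((5 : ℕ).factorial : ℝ) = 120 := by norm_num [Nat.factorial]
  rw [h5] at h
  have h6 : 72 * q ^ 4 ≤ q ^ 5 / 120 := by
    have : q ^ 5 = q ^ 4 * q := by ring
    rw [le_div_iff₀ (by norm_num), this]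
    have h4 : 0 ≤ q ^ 4 := by positivity
    nlinarith
  linarith

/-- the data attached to `k`, `N`, `δ`, `q` -/
structure Data (δ : ℝ) (k N : ℕ) (q r l : ℝ) : Prop where
  hδ : 0 < δ
  hδ1 : δ ≤ 1 / 20
  hk : 1 ≤ k
  hq : 8640 ≤ δ ^ 3 * q
  hr : r = (N : ℝ) / k
  hl : l = Real.log r
  hrq : q ^ 20 ≤ r
  hkq : q ^ 16 ≤ k
  hlog : δ * l = Real.log q

theorem one_sub_pow_ge {x y : ℝ} {k : ℕ} (hx0 : 0 ≤ x) (hx : x ≤ 1 / 2) (hy : 2 * (k * x) ≤ y) :
    Real.exp (-y) ≤ (1 - x) ^ k := by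
  have h1 : Real.exp (-(2 * x)) ≤ 1 - x := by
    have h2 : Real.exp (2 * x) * (1 - x) ≥ 1 := by
      have h3 := Real.add_one_le_exp (2 * x)
      have h4 : (2 * x + 1) * (1 - x) ≤ Real.exp (2 * x) * (1 - x) :=
        mul_le_mul_of_nonneg_right h3 (by linarith)
      nlinarith
    rw [Real.exp_neg, inv_eq_one_div, div_le_iff₀ (Real.exp_pos _)]
    linarith
  refine le_trans ?_ (pow_le_pow_left₀ (Real.exp_pos _).le h1 k)
  rw [← Real.exp_nat_mul]
  exact Real.exp_le_exp.2 (by linarith)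

section

variable {δ : ℝ} {k N : ℕ} {q r l : ℝ}

theorem Data.facts (d : Data δ k N q r l) :
    (0 : ℝ) < k ∧ 0 < q ∧ 0 < r ∧ 20 ≤ l ∧ (N : ℝ) = k * r ∧ l = Real.log q / δ := by
  obtain ⟨h1, h2, h3, h4, h5⟩ := q_facts d.hδ d.hδ1 d.hq
  have hk : (0 : ℝ) < k := by exact_mod_cast d.hk
  have hq0 : 0 < q := by linarith
  have hr0 : 0 < r := lt_of_lt_of_le (by positivity) d.hrq
  have hl : l = Real.log q / δ := by
    rw [← d.hlog]
    have := d.hδ.ne'
    field_simp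
  have hl20 : 20 ≤ l := by
    have := d.hδ
    have := d.hδ1
    rw [hl, le_div_iff₀ d.hδ]
    linarith
  refine ⟨hk, hq0, hr0, hl20, ?_, hl⟩
  rw [d.hr]
  field_simp

theorem Data.p_facts (d : Data δ k N q r l) :
    0 < δ * l / k ∧ δ * l / k ≤ 1 / 4 ∧ 0 < 1 / l ∧ 1 / l ≤ 1 / 4 ∧
      10 * (1 / l) * (δ * l / k) * k ≤ 1 := by
  obtain ⟨hk, hq0, hr0, hl20, hN, hl⟩ := d.facts
  obtain ⟨h1, h2, h3, h4, h5⟩ := q_facts d.hδ d.hδ1 d.hq
  have hδ := d.hδ
  have hl0 : 0 < l := by linarith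
  refine ⟨by positivity, ?_, by positivity, ?_, ?_⟩
  · rw [d.hlog, div_le_iff₀ hk]
    have h6 : q ≤ q ^ 16 := by
      calc q = q ^ 1 := (pow_one q).symm
        _ ≤ q ^ 16 := pow_le_pow_right₀ (by linarith) (by norm_num)
    have := d.hkq
    linarith
  · exact one_div_le_one_div_of_le (by norm_num) (by linarith)
  · have h6 : 10 * (1 / l) * (δ * l / k) * k = 10 * δ := by
      field_simp
    rw [h6]
    have := d.hδ1
    linarith

theorem Data.pow_lower (d : Data δ k N q r l) :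
    1 / q ^ 3 ≤ (1 - (1 + 1 / l) * (δ * l / k)) ^ k := by
  obtain ⟨hk, hq0, hr0, hl20, hN, hl⟩ := d.facts
  obtain ⟨h1, h2, h3, h4, h5⟩ := q_facts d.hδ d.hδ1 d.hq
  obtain ⟨p1, p2, p3, p4, p5⟩ := d.p_facts
  have hl0 : 0 < l := by linarith
  have hx : (1 + 1 / l) * (δ * l / k) ≤ 1 / 2 := by nlinarith
  have hy : 2 * (k * ((1 + 1 / l) * (δ * l / k))) ≤ 3 * Real.log q := by
    have h6 : 2 * (k * ((1 + 1 / l) * (δ * l / k))) = 2 * (1 + 1 / l) * (δ * l) := by
      field_simp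
    rw [h6, d.hlog]
    nlinarith
  have h7 := one_sub_pow_ge (k := k) (by positivity) hx hy
  refine le_trans (le_of_eq ?_) h7
  rw [Real.exp_neg, one_div]
  congr 1
  have h8 : (3 : ℝ) * Real.log q = ((3 : ℕ) : ℝ) * Real.log q := by norm_num
  rw [h8, Real.exp_nat_mul, Real.exp_log hq0]

theorem Data.det_facts (d : Data δ k N q r l) (h : ℕ) (hh : 256 * (k : ℝ) * h ≤ (N : ℝ) ^ 2) :
    1 ≤ (N : ℝ) / q ^ 4 ∧ (N : ℝ) / q ^ 4 ≤ N / 4 * (1 - (1 + 1 / l) * (δ * l / k)) ^ k ∧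
      0 < r / 16 ∧ 16 * (h : ℝ) ≤ r / 16 * N ∧ 0 ≤ (N : ℝ) / q ^ 6 ∧
      (k : ℝ) * (1 + 32 * (k / N) * Real.exp (2 * (δ * l / k) * k) * (δ * l / k) * (N / q ^ 6) *
        (r / 16)) ≤ (N : ℝ) / 2 * (1 - (1 + 1 / l) * (δ * l / k)) ^ k := by
  obtain ⟨hk, hq0, hr0, hl20, hN, hl⟩ := d.facts
  obtain ⟨h1, h2, h3, h4, h5⟩ := q_facts d.hδ d.hδ1 d.hq
  have hlow := d.pow_lower
  have hl0 : 0 < l := by linarith
  have hk1 : (1 : ℝ) ≤ k := by exact_mod_cast d.hk
  have hN0 : (0 : ℝ) < N := by rw [hN]; positivity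
  have hq1 : 1 ≤ q := by linarith
  have hr4 : q ^ 4 ≤ r := (pow_le_pow_right₀ hq1 (by norm_num)).trans d.hrq
  have hNlow : (N : ℝ) / q ^ 3 ≤ N * (1 - (1 + 1 / l) * (δ * l / k)) ^ k := by
    have := mul_le_mul_of_nonneg_left hlow hN0.le
    rwa [mul_one_div] at this
  refine ⟨?_, ?_, by positivity, ?_, by positivity, ?_⟩
  · rw [le_div_iff₀ (by positivity), one_mul, hN]
    nlinarith
  · have h6 : (N : ℝ) / q ^ 4 ≤ N / q ^ 3 / 4 := by
      rw [div_div, div_le_div_iff₀ (by positivity) (by positivity)]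
      have : q ^ 4 = q ^ 3 * q := by ring
      rw [this]
      have h7 : q ^ 3 * 4 ≤ q ^ 3 * q := mul_le_mul_of_nonneg_left (by linarith) (by positivity)
      exact mul_le_mul_of_nonneg_left h7 hN0.le
    linarith
  · have h6 : (16 * (h : ℝ)) * (16 * k) ≤ (r / 16 * N) * (16 * k) := by
      have h7 : (r / 16 * N) * (16 * k) = N ^ 2 := by rw [hN]; ring
      rw [h7]
      linarith
    exact le_of_mul_le_mul_right h6 (by positivity)
  · have hexp : Real.exp (2 * (δ * l / k) * k) = q ^ 2 := by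
      have h6 : 2 * (δ * l / k) * k = ((2 : ℕ) : ℝ) * Real.log q := by
        rw [d.hlog]
        push_cast
        field_simp
      rw [h6, Real.exp_nat_mul, Real.exp_log hq0]
    have h6 : (k : ℝ) * (1 + 32 * (k / N) * Real.exp (2 * (δ * l / k) * k) * (δ * l / k) *
        (N / q ^ 6) * (r / 16)) = k + 2 * Real.log q * (N / q ^ 4) := by
      rw [hexp, d.hlog, hN]
      field_simp
      ring
    rw [h6]
    have h7 : (k : ℝ) ≤ N / q ^ 3 / 4 := by
      rw [div_div, le_div_iff₀ (by positivity), hN]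
      have : q ^ 3 * 4 ≤ r := by
        refine le_trans ?_ hr4
        have : q ^ 4 = q ^ 3 * q := by ring
        rw [this]
        exact mul_le_mul_of_nonneg_left (by linarith) (by positivity)
      exact mul_le_mul_of_nonneg_left this hk.le
    have h8 : 2 * Real.log q * (N / q ^ 4) ≤ N / q ^ 3 / 4 := by
      have h9 : (N : ℝ) / q ^ 3 / 4 = q / 4 * (N / q ^ 4) := by
        field_simp
      rw [h9]
      exact mul_le_mul_of_nonneg_right (by linarith) (by positivity)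
    linarith

theorem Data.c_facts (d : Data δ k N q r l) :
    (N : ℝ) / q ^ 4 ≤ N ∧
    36 * Real.exp (-((1 / l) ^ 2 * (δ * l / k) * (N / q ^ 4) / 8)) * N ≤ (N : ℝ) / q ^ 4 ∧
    72 * Real.exp (-((1 / l) ^ 2 * (δ * l / k) * (N / q ^ 6) / 16)) * N ≤ (N : ℝ) / q ^ 4 ∧
    (N : ℝ) / q ^ 6 + 1 ≤ 1 / l * (N / q ^ 4) / 2 := by
  obtain ⟨hk, hq0, hr0, hl20, hN, hl⟩ := d.facts
  obtain ⟨h1, h2, h3, h4, h5⟩ := q_facts d.hδ d.hδ1 d.hq
  have hδ := d.hδ
  have hl0 : 0 < l := by linarith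
  have hk1 : (1 : ℝ) ≤ k := by exact_mod_cast d.hk
  have hN0 : (0 : ℝ) < N := by rw [hN]; positivity
  have hq1 : 1 ≤ q := by linarith
  have hL0 : 0 < Real.log q := by linarith
  have hexp := exp_facts h1
  -- the general form of the two exponents
  have hgen : ∀ a : ℝ, 0 < a → q ≤ a → Real.exp (-a) * q ^ 4 ≤ 1 / 72 := by
    intro a _ ha2
    have h6 : Real.exp (-a) ≤ Real.exp (-q) := Real.exp_le_exp.2 (by linarith)
    have h7 : Real.exp (-q) * q ^ 4 ≤ 1 / 72 := by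
      rw [Real.exp_neg, inv_mul_le_iff₀ (Real.exp_pos q)]
      linarith
    exact (mul_le_mul_of_nonneg_right h6 (by positivity)).trans h7
  have e1 : (1 / l) ^ 2 * (δ * l / k) * (N / q ^ 4) / 8 = δ ^ 2 * r / (8 * Real.log q * q ^ 4) := by
    rw [hN, hl]
    field_simp
  have e2 : (1 / l) ^ 2 * (δ * l / k) * (N / q ^ 6) / 16 =
      δ ^ 2 * r / (16 * Real.log q * q ^ 6) := by
    rw [hN, hl]
    field_simp
  have hlq : Real.log q ≤ q := by linarith
  have b1 : q ≤ δ ^ 2 * r / (8 * Real.log q * q ^ 4) := by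
    rw [le_div_iff₀ (by positivity)]
    calc q * (8 * Real.log q * q ^ 4) ≤ q * (8 * q * q ^ 4) := by
          apply mul_le_mul_of_nonneg_left _ hq0.le
          apply mul_le_mul_of_nonneg_right _ (by positivity)
          linarith
      _ = 8 * q ^ 6 := by ring
      _ ≤ (δ ^ 2 * q) * q ^ 6 := mul_le_mul_of_nonneg_right (by linarith) (by positivity)
      _ = δ ^ 2 * q ^ 7 := by ring
      _ ≤ δ ^ 2 * q ^ 20 :=
          mul_le_mul_of_nonneg_left (pow_le_pow_right₀ hq1 (by norm_num)) (by positivity)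
      _ ≤ δ ^ 2 * r := mul_le_mul_of_nonneg_left d.hrq (by positivity)
  have b2 : q ≤ δ ^ 2 * r / (16 * Real.log q * q ^ 6) := by
    rw [le_div_iff₀ (by positivity)]
    calc q * (16 * Real.log q * q ^ 6) ≤ q * (16 * q * q ^ 6) := by
          apply mul_le_mul_of_nonneg_left _ hq0.le
          apply mul_le_mul_of_nonneg_right _ (by positivity)
          linarith
      _ = 16 * q ^ 8 := by ring
      _ ≤ (δ ^ 2 * q) * q ^ 8 := mul_le_mul_of_nonneg_right (by linarith) (by positivity)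
      _ = δ ^ 2 * q ^ 9 := by ring
      _ ≤ δ ^ 2 * q ^ 20 :=
          mul_le_mul_of_nonneg_left (pow_le_pow_right₀ hq1 (by norm_num)) (by positivity)
      _ ≤ δ ^ 2 * r := mul_le_mul_of_nonneg_left d.hrq (by positivity)
  refine ⟨?_, ?_, ?_, ?_⟩
  · exact div_le_self hN0.le (one_le_pow₀ hq1)
  · rw [e1, le_div_iff₀ (by positivity)]
    have := hgen _ (by positivity) b1
    nlinarith
  · rw [e2, le_div_iff₀ (by positivity)]
    have := hgen _ (by positivity) b2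
    nlinarith
  · have h6 : 1 ≤ (N : ℝ) / q ^ 6 := by
      rw [le_div_iff₀ (by positivity), one_mul, hN]
      have hr6 : q ^ 6 ≤ r := (pow_le_pow_right₀ hq1 (by norm_num)).trans d.hrq
      nlinarith
    have h7 : 2 * ((N : ℝ) / q ^ 6) ≤ 1 / l * (N / q ^ 4) / 2 := by
      rw [hl]
      have h8 : 1 / (Real.log q / δ) * ((N : ℝ) / q ^ 4) / 2 =
          (δ * q ^ 2 / (4 * Real.log q)) * (2 * (N / q ^ 6)) := by
        field_simp
        ring
      rw [h8]
      have h9 : 1 ≤ δ * q ^ 2 / (4 * Real.log q) := by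
        rw [le_div_iff₀ (by positivity), one_mul]
        calc 4 * Real.log q ≤ q := by linarith
          _ = 1 * q := by ring
          _ ≤ (δ * q) * q := mul_le_mul_of_nonneg_right (by linarith) hq0.le
          _ = δ * q ^ 2 := by ring
      have h10 : 0 ≤ 2 * ((N : ℝ) / q ^ 6) := by positivity
      nlinarith
    linarith

theorem Data.u3_facts (d : Data δ k N q r l) (m : ℕ)
    (hm : 1 / l * (δ * l / k) * (N / q ^ 4) < m) :
    (N : ℝ) * N * (N.choose m) * (δ * l / k) ^ (2 * m) ≤ 1 / 12 := by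
  obtain ⟨hk, hq0, hr0, hl20, hN, hl⟩ := d.facts
  obtain ⟨h1, h2, h3, h4, h5⟩ := q_facts d.hδ d.hδ1 d.hq
  obtain ⟨p1, -, -, -, -⟩ := d.p_facts
  have hδ := d.hδ
  have hl0 : 0 < l := by linarith
  have hN0 : (0 : ℝ) < N := by rw [hN]; positivity
  have hq1 : 1 ≤ q := by linarith
  have hL0 : 0 < Real.log q := by linarith
  have hκ : 1 / l * (δ * l / k) * (N / q ^ 4) = δ * r / q ^ 4 := by
    rw [hN]
    field_simp
  rw [hκ] at hm
  have hκ1 : δ * q ^ 16 ≤ δ * r / q ^ 4 := by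
    rw [le_div_iff₀ (by positivity)]
    calc δ * q ^ 16 * q ^ 4 = δ * q ^ 20 := by ring
      _ ≤ δ * r := mul_le_mul_of_nonneg_left d.hrq hδ.le
  have hκ4 : (4 : ℝ) ≤ δ * r / q ^ 4 := by
    have : δ * q ≤ δ * q ^ 16 := by
      apply mul_le_mul_of_nonneg_left _ hδ.le
      calc q = q ^ 1 := (pow_one q).symm
        _ ≤ q ^ 16 := pow_le_pow_right₀ hq1 (by norm_num)
    linarith
  have hm0 : (0 : ℝ) < m := by linarith
  have hmpos : 0 < m := by exact_mod_cast hm0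
  have hm4 : 4 ≤ m := by
    have : (4 : ℝ) < m := by linarith
    exact_mod_cast this.le
  have hch := choose_pow_le N m (δ * l / k) p1.le hmpos
  -- the base
  obtain ⟨u, hu⟩ : ∃ u : ℝ, u = Real.sqrt k := ⟨_, rfl⟩
  have huu : u * u = k := by rw [hu]; exact Real.mul_self_sqrt hk.le
  have hu8 : q ^ 8 ≤ u := by
    rw [hu]
    apply Real.le_sqrt_of_sq_le
    have e0 : (q ^ 8) ^ 2 = q ^ 16 := by ring
    rw [e0]
    exact d.hkq
  have hu0 : 0 < u := lt_of_lt_of_le (by positivity) hu8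
  have hbase : 3 * (N * (δ * l / k) ^ 2) / m ≤ (1 / u) * (1 / q) := by
    rw [d.hlog]
    have e1 : 3 * ((N : ℝ) * (Real.log q / k) ^ 2) = 3 * r * Real.log q ^ 2 / k := by
      rw [hN]
      field_simp
    rw [e1, div_le_iff₀ hm0]
    have e2 : (1 / u) * (1 / q) * (δ * r / q ^ 4) ≤ (1 / u) * (1 / q) * m :=
      mul_le_mul_of_nonneg_left hm.le (by positivity)
    refine le_trans ?_ e2
    have e3 : (1 / u) * (1 / q) * (δ * r / q ^ 4) = δ * r / (u * q ^ 5) := by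
      field_simp
    rw [e3, div_le_div_iff₀ hk (by positivity), ← huu]
    have e4 : Real.log q ^ 2 ≤ q ^ 2 := pow_le_pow_left₀ hL0.le (by linarith) 2
    calc 3 * r * Real.log q ^ 2 * (u * q ^ 5) ≤ 3 * r * q ^ 2 * (u * q ^ 5) := by
          apply mul_le_mul_of_nonneg_right _ (by positivity)
          exact mul_le_mul_of_nonneg_left e4 (by positivity)
      _ = (3 * q ^ 7) * (r * u) := by ring
      _ ≤ ((δ * q) * q ^ 7) * (r * u) := by
          apply mul_le_mul_of_nonneg_right _ (by positivity)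
          exact mul_le_mul_of_nonneg_right (by linarith) (by positivity)
      _ = δ * r * (u * q ^ 8) := by ring
      _ ≤ δ * r * (u * u) := by
          apply mul_le_mul_of_nonneg_left _ (by positivity)
          exact mul_le_mul_of_nonneg_left hu8 hu0.le
  have hbase0 : 0 ≤ 3 * ((N : ℝ) * (δ * l / k) ^ 2) / m := by positivity
  have hpow : (3 * (N * (δ * l / k) ^ 2) / m) ^ m ≤ (1 / u) ^ m * (1 / q) ^ m := by
    rw [← mul_pow]
    exact pow_le_pow_left₀ hbase0 hbase m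
  have hu1 : 1 ≤ u := (one_le_pow₀ hq1).trans hu8
  have hpu : (1 / u) ^ m ≤ 1 / (k : ℝ) ^ 2 := by
    have e1 : (1 / u) ^ m ≤ (1 / u) ^ 4 := by
      apply pow_le_pow_of_le_one (by positivity) _ hm4
      rw [div_le_one hu0]
      exact hu1
    refine e1.trans (le_of_eq ?_)
    rw [one_div_pow, ← huu]
    congr 1
    ring
  have hpq : (1 / q) ^ m ≤ 6 / (δ * r / q ^ 4) ^ 3 := by
    have e1 : (1 / q) ^ m = Real.exp (-(m * Real.log q)) := by
      rw [Real.exp_neg, Real.exp_nat_mul, Real.exp_log hq0, one_div, inv_pow]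
    rw [e1]
    have e2 : Real.exp (-(m * Real.log q)) ≤ Real.exp (-(m : ℝ)) := by
      apply Real.exp_le_exp.2
      nlinarith
    refine e2.trans ?_
    have e3 := Real.pow_div_factorial_le_exp (x := (m : ℝ)) hm0.le 3
    have h6 : ((3 : ℕ).factorial : ℝ) = 6 := by norm_num [Nat.factorial]
    rw [h6] at e3
    have e4 : (δ * r / q ^ 4) ^ 3 ≤ (m : ℝ) ^ 3 := pow_le_pow_left₀ (by positivity) hm.le 3
    have e5 : (0 : ℝ) < (δ * r / q ^ 4) ^ 3 := by positivity
    rw [Real.exp_neg, inv_eq_one_div, div_le_div_iff₀ (Real.exp_pos _) e5]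
    linarith
  have hprod : (N.choose m : ℝ) * (δ * l / k) ^ (2 * m) ≤
      1 / (k : ℝ) ^ 2 * (6 / (δ * r / q ^ 4) ^ 3) :=
    hch.trans (hpow.trans (mul_le_mul hpu hpq (by positivity) (by positivity)))
  calc (N : ℝ) * N * (N.choose m) * (δ * l / k) ^ (2 * m)
      = (N * N) * ((N.choose m : ℝ) * (δ * l / k) ^ (2 * m)) := by ring
    _ ≤ (N * N) * (1 / (k : ℝ) ^ 2 * (6 / (δ * r / q ^ 4) ^ 3)) :=
        mul_le_mul_of_nonneg_left hprod (by positivity)
    _ = 6 * q ^ 12 / (δ ^ 3 * r) := by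
        rw [hN]
        field_simp
    _ ≤ 1 / 12 := by
        rw [div_le_div_iff₀ (by positivity) (by norm_num)]
        have e1 : 72 * q ^ 12 ≤ (δ ^ 3 * q) * q ^ 12 :=
          mul_le_mul_of_nonneg_right (by linarith [d.hq]) (by positivity)
        have e2 : (δ ^ 3 * q) * q ^ 12 = δ ^ 3 * q ^ 13 := by ring
        have e3 : δ ^ 3 * q ^ 13 ≤ δ ^ 3 * q ^ 20 :=
          mul_le_mul_of_nonneg_left (pow_le_pow_right₀ hq1 (by norm_num)) (by positivity)
        have e4 : δ ^ 3 * q ^ 20 ≤ δ ^ 3 * r := mul_le_mul_of_nonneg_left d.hrq (by positivity)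
        linarith

end

end Pool.Agent.LGS
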