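import Pool.Agent.LGS.Defs

set_option autoImplicit false

/-!
# MP_5b54e3_co, general sizes: the uniformity conditions hold with large probability
-/

namespace Pool.Agent.LGS

open Finset Pool.Agent.LGC

/-- The union bound over all large subsets of `S`. -/
theorem sum_large {V : Type} (S : Finset V) (x w₀ : ℝ) (hx : 0 ≤ x) (hw : 1 ≤ w₀)
    (hwN : w₀ ≤ S.card) (h : 36 * x * S.card ≤ w₀) :
    ∑ W ∈ S.powerset.filter (fun W => w₀ ≤ (W.card : ℝ)), x ^ W.card ≤ 1 / 12 := by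
  classical
  have hN : (0 : ℝ) < S.card := by linarith
  obtain ⟨y, hy⟩ : ∃ y : ℝ, y = w₀ / S.card := ⟨_, rfl⟩
  have hy0 : 0 < y := by rw [hy]; positivity
  have hyN : y * S.card = w₀ := by rw [hy]; field_simp
  have hxy : x ≤ (1 / 36) * y := by
    rw [hy, mul_div_assoc', le_div_iff₀ hN]
    linarith
  have h1 : ∀ W ∈ S.powerset.filter (fun W => w₀ ≤ (W.card : ℝ)),
      x ^ W.card ≤ (Real.exp (-w₀) / 12) * y ^ W.card := by
    intro W hW
    have hWc := (mem_filter.1 hW).2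
    have hW1 : 1 ≤ W.card := by
      have : (1 : ℝ) ≤ W.card := hw.trans hWc
      exact_mod_cast this
    have h2 : x ^ W.card ≤ ((1 / 36) * y) ^ W.card := pow_le_pow_left₀ hx hxy _
    have h3 : (1 / 36 : ℝ) ^ W.card ≤ Real.exp (-w₀) / 12 := by
      have h4 : (1 / 36 : ℝ) ≤ Real.exp (-1) * (1 / 12) := by
        have h5 : Real.exp (-1) ≥ 1 / 3 := by
          rw [Real.exp_neg, ge_iff_le, ← one_div]
          exact one_div_le_one_div_of_le (Real.exp_pos _) Real.exp_one_lt_three.le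
        linarith
      have h6 : (1 / 36 : ℝ) ^ W.card ≤ (Real.exp (-1) * (1 / 12)) ^ W.card :=
        pow_le_pow_left₀ (by norm_num) h4 _
      rw [mul_pow, ← Real.exp_nat_mul] at h6
      have h7 : (1 / 12 : ℝ) ^ W.card ≤ 1 / 12 := by
        calc (1 / 12 : ℝ) ^ W.card ≤ (1 / 12 : ℝ) ^ 1 :=
              pow_le_pow_of_le_one (by norm_num) (by norm_num) hW1
          _ = 1 / 12 := by norm_num
      have h8 : Real.exp ((W.card : ℝ) * -1) ≤ Real.exp (-w₀) :=
        Real.exp_le_exp.2 (by linarith)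
      calc (1 / 36 : ℝ) ^ W.card ≤ Real.exp ((W.card : ℝ) * -1) * (1 / 12) ^ W.card := h6
        _ ≤ Real.exp (-w₀) * (1 / 12) :=
            mul_le_mul h8 h7 (by positivity) (Real.exp_pos _).le
        _ = Real.exp (-w₀) / 12 := by ring
    rw [mul_pow] at h2
    exact h2.trans (mul_le_mul_of_nonneg_right h3 (by positivity))
  refine (sum_le_sum h1).trans ?_
  rw [← mul_sum]
  have h2 : ∑ W ∈ S.powerset.filter (fun W => w₀ ≤ (W.card : ℝ)), y ^ W.card ≤
      ∑ W ∈ S.powerset, y ^ W.card := by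
    apply sum_le_sum_of_subset_of_nonneg (filter_subset _ _)
    intro W _ _
    positivity
  have h3 : ∑ W ∈ S.powerset, y ^ W.card = (y + 1) ^ S.card := by
    rw [← Finset.sum_pow_mul_eq_add_pow y 1 S]
    simp
  have h4 : (y + 1) ^ S.card ≤ Real.exp w₀ := by
    rw [← hyN, mul_comm y, Real.exp_nat_mul]
    exact pow_le_pow_left₀ (by positivity) (Real.add_one_le_exp y) _
  calc Real.exp (-w₀) / 12 * ∑ W ∈ S.powerset.filter (fun W => w₀ ≤ (W.card : ℝ)), y ^ W.card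
      ≤ Real.exp (-w₀) / 12 * Real.exp w₀ :=
        mul_le_mul_of_nonneg_left (h2.trans (h3.le.trans h4)) (by positivity)
    _ = 1 / 12 := by
        have : Real.exp (-w₀) * Real.exp w₀ = 1 := by rw [← Real.exp_add]; simp
        linarith

/-- large sets do not have too many edges -/
theorem u1g (h : S_CH) {V : Type} [Fintype V] (S : Finset V) (p η w₀ c : ℝ)
    (hp0 : 0 ≤ p) (hp1 : p ≤ 1) (he0 : 0 ≤ η) (he1 : η ≤ 1) (hw1 : 1 ≤ w₀) (hwN : w₀ ≤ S.card)
    (hc : c ≤ η ^ 2 * p * w₀ / 8) (hN : 36 * Real.exp (-c) * S.card ≤ w₀) :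
    Pr p (fun A : Finset (Sym2 V) => ¬ U1 (gr A) S p η w₀) ≤ 1 / 12 := by
  have hCH := (@h (Sym2 V) _ (Classical.decEq _) p hp0 hp1).2.2.1
  classical
  have hone : ∀ W : Finset V, w₀ ≤ W.card →
      Pr p (fun A : Finset (Sym2 V) =>
        ¬ ((prs (gr A) W : ℝ) ≤ (1 + η) * p * (W.card : ℝ) ^ 2)) ≤ (Real.exp (-c)) ^ W.card := by
    intro W hW
    have h1 := hCH (U1_T W) (p * (W.card : ℝ) ^ 2 / 2) η he0 he1 (by
      have h2 : (2 : ℝ) * (U1_T W).card ≤ (W.card : ℝ) ^ 2 := by exact_mod_cast U1_card_T W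
      nlinarith)
    refine le_trans (Pr_mono hp0 hp1 ?_) (h1.trans ?_)
    · intro A hA
      push Not at hA
      have h2 : (prs (gr A) W : ℝ) ≤ 2 * ((A ∩ U1_T W).card : ℝ) := by
        exact_mod_cast U1_prs_le A W
      have h3 : (1 + η) * (p * (W.card : ℝ) ^ 2 / 2) ≤ ((A ∩ U1_T W).card : ℝ) := by
        nlinarith
      exact h3.trans (le_of_eq (congrArg (Nat.cast : ℕ → ℝ) (U1_ic _ _ A (U1_T W))))
    · rw [← Real.exp_nat_mul]
      apply Real.exp_le_exp.2
      have hW0 : (0 : ℝ) ≤ W.card := Nat.cast_nonneg _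
      have h2 : c ≤ η ^ 2 * p * W.card / 8 := by
        refine hc.trans ?_
        have : 0 ≤ η ^ 2 * p := by positivity
        have := mul_le_mul_of_nonneg_left hW this
        linarith
      have h3 := mul_le_mul_of_nonneg_right h2 hW0
      linarith
  have hun : Pr p (fun A : Finset (Sym2 V) => ¬ U1 (gr A) S p η w₀) ≤
      ∑ W ∈ S.powerset.filter (fun W => w₀ ≤ (W.card : ℝ)), (Real.exp (-c)) ^ W.card := by
    have hu1 := Pr_exists_le hp0 hp1 (S.powerset.filter (fun W => w₀ ≤ (W.card : ℝ)))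
      (fun (W : Finset V) (A : Finset (Sym2 V)) =>
        ¬ ((prs (gr A) W : ℝ) ≤ (1 + η) * p * (W.card : ℝ) ^ 2))
    have hu2 : Pr p (fun A : Finset (Sym2 V) => ¬ U1 (gr A) S p η w₀) ≤
        Pr p (fun A : Finset (Sym2 V) =>
          ∃ W ∈ S.powerset.filter (fun W => w₀ ≤ (W.card : ℝ)),
            ¬ ((prs (gr A) W : ℝ) ≤ (1 + η) * p * (W.card : ℝ) ^ 2)) := by
      apply Pr_mono hp0 hp1
      intro A hA
      unfold U1 at hA
      push Not at hA
      obtain ⟨W, hWS, hW, hlt⟩ := hA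
      exact ⟨W, mem_filter.2 ⟨mem_powerset.2 hWS, hW⟩, not_le.2 hlt⟩
    refine hu2.trans (hu1.trans ?_)
    apply sum_le_sum
    intro W hW
    exact hone W (mem_filter.1 hW).2
  exact hun.trans (sum_large S (Real.exp (-c)) w₀ (Real.exp_pos _).le hw1 hwN hN)

/-- few vertices of low degree in large sets -/
theorem u2g (hCH : S_CH) {V : Type} [Fintype V] (S : Finset V) (p η w₀ x₀ c : ℝ)
    (hp0 : 0 ≤ p) (hp1 : p ≤ 1) (hη0 : 0 ≤ η) (hη1 : η ≤ 1) (hx₀ : 0 ≤ x₀) (hw₀ : 1 ≤ w₀)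
    (hwN : w₀ ≤ S.card)
    (hxw : x₀ + 1 ≤ η * w₀ / 2) (hc : c ≤ η ^ 2 * p * x₀ / 16)
    (hN : 72 * Real.exp (-c) * S.card ≤ w₀) :
    Pr p (fun A : Finset (Sym2 V) => ¬ U2 (gr A) S p η w₀ x₀) ≤ 1 / 12 := by
  classical
  set m : ℕ := ⌊x₀⌋₊ + 1 with hm
  have hmx : x₀ < (m : ℝ) := by rw [hm]; push_cast; exact Nat.lt_floor_add_one x₀
  have hmx1 : (m : ℝ) ≤ x₀ + 1 := by
    rw [hm]; push_cast
    have := Nat.floor_le hx₀
    linarith
  let F : Finset (Σ _ : Finset V, Finset V) :=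
    (S.powerset.filter (fun W => w₀ ≤ (W.card : ℝ))).sigma
      (fun W => W.powerset.filter (fun X => X.card = m))
  have h1 : Pr p (fun A : Finset (Sym2 V) => ¬ U2 (gr A) S p η w₀ x₀) ≤
      Pr p (fun A : Finset (Sym2 V) => ∃ z ∈ F,
        (fun (z : Σ _ : Finset V, Finset V) (A : Finset (Sym2 V)) =>
        ∀ x ∈ z.2, (dg (gr A) z.1 x : ℝ) < (1 - η) * p * z.1.card) z A) := by
    refine Pr_mono hp0 hp1 ?_
    intro A hA
    unfold U2 at hA
    push Not at hA
    obtain ⟨W, hWS, hWw, hWx⟩ := hA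
    have h2 : m ≤ (W.filter (fun x => (dg (gr A) W x : ℝ) < (1 - η) * p * W.card)).card := by
      rw [hm]
      have : ⌊x₀⌋₊ < (W.filter (fun x => (dg (gr A) W x : ℝ) < (1 - η) * p * W.card)).card := by
        rw [Nat.floor_lt hx₀]
        exact lt_of_lt_of_eq hWx (congrArg (Nat.cast : ℕ → ℝ) (U2_fc W _ _ _))
      exact this
    obtain ⟨X, hX1, hX2⟩ := Finset.exists_subset_card_eq h2
    refine ⟨⟨W, X⟩, ?_, ?_⟩
    · simp only [F, Finset.mem_sigma, Finset.mem_filter, Finset.mem_powerset]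
      exact ⟨⟨hWS, hWw⟩, hX1.trans (Finset.filter_subset _ _), hX2⟩
    · intro x hx
      exact (Finset.mem_filter.1 (hX1 hx)).2
  refine h1.trans ((Pr_exists_le hp0 hp1 F _).trans ?_)
  have h2 : ∀ z ∈ F, Pr p (fun A : Finset (Sym2 V) =>
      ∀ x ∈ z.2, (dg (gr A) z.1 x : ℝ) < (1 - η) * p * z.1.card) ≤
      Real.exp (-c) ^ z.1.card := by
    rintro ⟨W, X⟩ hz
    simp only [F, Finset.mem_sigma, Finset.mem_filter, Finset.mem_powerset] at hz
    obtain ⟨⟨hWS, hWw⟩, hXW, hXm⟩ := hz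
    have hw0 : (0 : ℝ) ≤ W.card := Nat.cast_nonneg _
    refine (U2_one hCH p η hp0 hp1 hη0 hη1 X W hXW (by rw [hXm, hm]; omega) ?_).trans ?_
    · rw [hXm]
      have : η * w₀ ≤ η * W.card := mul_le_mul_of_nonneg_left hWw hη0
      linarith
    · rw [← Real.exp_nat_mul]
      apply Real.exp_le_exp.2
      have h3 : c ≤ η ^ 2 * p * X.card / 16 := by
        refine hc.trans ?_
        have : η ^ 2 * p * x₀ ≤ η ^ 2 * p * X.card := by
          apply mul_le_mul_of_nonneg_left _ (by positivity)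
          rw [hXm]; exact hmx.le
        linarith
      have := mul_le_mul_of_nonneg_right h3 hw0
      linarith
  refine (Finset.sum_le_sum h2).trans ?_
  have h3 : ∑ z ∈ F, Real.exp (-c) ^ z.1.card =
      ∑ W ∈ S.powerset.filter (fun W => w₀ ≤ (W.card : ℝ)),
        ∑ _X ∈ W.powerset.filter (fun X => X.card = m), Real.exp (-c) ^ W.card :=
    Finset.sum_sigma _ _ _
  rw [h3]
  have h4 : ∀ W ∈ S.powerset.filter (fun W => w₀ ≤ (W.card : ℝ)),
      ∑ _X ∈ W.powerset.filter (fun X => X.card = m), Real.exp (-c) ^ W.card ≤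
      (2 * Real.exp (-c)) ^ W.card := by
    intro W _
    rw [Finset.sum_const, nsmul_eq_mul, mul_pow]
    apply mul_le_mul_of_nonneg_right _ (by positivity)
    have : (W.powerset.filter (fun X => X.card = m)).card ≤ 2 ^ W.card := by
      rw [← Finset.card_powerset]
      exact Finset.card_filter_le _ _
    exact_mod_cast this
  refine (Finset.sum_le_sum h4).trans ?_
  exact sum_large S (2 * Real.exp (-c)) w₀ (by positivity) hw₀ hwN (by linarith)

/-- codegrees in the random graph -/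
theorem u3g (h : S_CH) {V : Type} [Fintype V] (S : Finset V) (p κ : ℝ) (hp0 : 0 ≤ p)
    (hp1 : p ≤ 1) (hκ : 0 ≤ κ)
    (hnum : ∀ m : ℕ, κ < m → (S.card : ℝ) * S.card * (S.card.choose m) * p ^ (2 * m) ≤ 1 / 12) :
    Pr p (fun A : Finset (Sym2 V) => ¬ U3 (gr A) S κ) ≤ 1 / 12 := by
  classical
  obtain ⟨m, hm⟩ : ∃ m : ℕ, m = ⌊κ⌋₊ + 1 := ⟨_, rfl⟩
  have hm1 : κ < m := by
    rw [hm]
    push_cast
    exact Nat.lt_floor_add_one _
  set F : Finset ((V × V) × Finset V) := ((S ×ˢ S) ×ˢ S.powersetCard m).filter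
    (fun t => t.1.1 ≠ t.1.2 ∧ t.1.1 ∉ t.2) with hF
  have hev : ∀ A : Finset (Sym2 V), ¬ U3 (gr A) S κ →
      ∃ t ∈ F, u3_T t.1.1 t.1.2 t.2 ⊆ A := by
    intro A hA
    unfold U3 at hA
    push Not at hA
    obtain ⟨x, hx, y, hy, hxy, hc⟩ := hA
    unfold cdg at hc
    have hmc : m ≤ (S.filter (fun z => (gr A).Adj x z ∧ (gr A).Adj y z)).card := by
      rw [hm, Nat.add_one_le_iff]
      exact (Nat.floor_lt hκ).2 hc
    obtain ⟨Z, hZ, hZc⟩ := Finset.exists_subset_card_eq hmc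
    have hmem : ∀ z ∈ Z, z ∈ S ∧ (gr A).Adj x z ∧ (gr A).Adj y z := by
      intro z hz
      have := Finset.mem_filter.1 (hZ hz)
      exact ⟨this.1, this.2.1, this.2.2⟩
    refine ⟨((x, y), Z), ?_, ?_⟩
    · rw [hF, Finset.mem_filter]
      refine ⟨?_, hxy, ?_⟩
      · simp only [Finset.mem_product, Finset.mem_powersetCard]
        exact ⟨⟨hx, hy⟩, fun z hz => (hmem z hz).1, hZc⟩
      · intro hxZ
        have := (hmem x hxZ).2.1
        exact this.ne rfl
    · intro e he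
      unfold u3_T at he
      rcases Finset.mem_union.1 he with he | he
      · obtain ⟨z, hz, rfl⟩ := Finset.mem_image.1 he
        exact ((gr_adj A x z).1 (hmem z hz).2.1).1
      · obtain ⟨z, hz, rfl⟩ := Finset.mem_image.1 he
        exact ((gr_adj A y z).1 (hmem z hz).2.2).1
  have hcard : ∀ t ∈ F, Pr p (fun A : Finset (Sym2 V) => u3_T t.1.1 t.1.2 t.2 ⊆ A) =
      p ^ (2 * m) := by
    intro t ht
    rw [hF, Finset.mem_filter] at ht
    obtain ⟨ht1, ht2, ht3⟩ := ht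
    simp only [Finset.mem_product, Finset.mem_powersetCard] at ht1
    rw [(h (Sym2 V) p hp0 hp1).1, u3_card ht2 ht3, ht1.2.2]
  have hFc : (F.card : ℝ) ≤ (S.card : ℝ) * S.card * (S.card.choose m) := by
    have : F.card ≤ S.card * S.card * S.card.choose m := by
      refine (Finset.card_filter_le _ _).trans (le_of_eq ?_)
      rw [Finset.card_product, Finset.card_product, Finset.card_powersetCard]
    exact_mod_cast this
  calc Pr p (fun A : Finset (Sym2 V) => ¬ U3 (gr A) S κ)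
      ≤ Pr p (fun A : Finset (Sym2 V) => ∃ t ∈ F, u3_T t.1.1 t.1.2 t.2 ⊆ A) :=
        Pr_mono hp0 hp1 hev
    _ ≤ ∑ t ∈ F, Pr p (fun A : Finset (Sym2 V) => u3_T t.1.1 t.1.2 t.2 ⊆ A) :=
        Pr_exists_le hp0 hp1 F (fun t A => u3_T t.1.1 t.1.2 t.2 ⊆ A)
    _ = F.card * p ^ (2 * m) := by
        rw [Finset.sum_congr rfl hcard, Finset.sum_const, nsmul_eq_mul]
    _ ≤ (S.card : ℝ) * S.card * (S.card.choose m) * p ^ (2 * m) :=
        mul_le_mul_of_nonneg_right hFc (pow_nonneg hp0 _)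
    _ ≤ 1 / 12 := hnum m hm1

/-- the binomial estimate used for the codegrees -/
theorem choose_pow_le (N m : ℕ) (p : ℝ) (hp0 : 0 ≤ p) (hm : 0 < m) :
    (N.choose m : ℝ) * p ^ (2 * m) ≤ (3 * (N * p ^ 2) / m) ^ m := by
  have hm0 : (0 : ℝ) < m := by exact_mod_cast hm
  have a1 : (N.choose m : ℝ) ≤ (N : ℝ) ^ m / (m.factorial : ℝ) := Nat.choose_le_pow_div m N
  have a2 : (m : ℝ) ^ m / (m.factorial : ℝ) ≤ Real.exp m :=
    Real.pow_div_factorial_le_exp (m : ℝ) hm0.le m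
  have a3 : Real.exp m ≤ 3 ^ m := by
    have : Real.exp m = Real.exp 1 ^ m := by
      rw [← Real.exp_nat_mul, mul_one]
    rw [this]
    exact pow_le_pow_left₀ (Real.exp_pos 1).le Real.exp_one_lt_three.le m
  have hf : (0 : ℝ) < m.factorial := by exact_mod_cast m.factorial_pos
  calc (N.choose m : ℝ) * p ^ (2 * m)
      ≤ (N : ℝ) ^ m / (m.factorial : ℝ) * p ^ (2 * m) :=
        mul_le_mul_of_nonneg_right a1 (pow_nonneg hp0 _)
    _ = (N * p ^ 2 / m) ^ m * ((m : ℝ) ^ m / (m.factorial : ℝ)) := by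
        rw [div_pow, mul_pow, ← pow_mul]
        field_simp
    _ ≤ (N * p ^ 2 / m) ^ m * 3 ^ m := by
        refine mul_le_mul_of_nonneg_left (a2.trans a3) (pow_nonneg (by positivity) _)
    _ = (3 * (N * p ^ 2) / m) ^ m := by
        rw [← mul_pow]
        congr 1
        ring

end Pool.Agent.LGS
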